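import Pool.Agent.Y121.ZI.Stm2
import Pool.Agent.Y510.ZI.Low

/-!
# Limits of the ranks
-/

open scoped TensorProduct

universe u v w

namespace Pool.Agent.Y658.ZI

open Module Pool.Agent.Y133.Half Pool.Agent.Y121.ZI Pool.Agent.Y121.ZI.NCTheory Pool.Agent.Y510.ZI

variable {K : Type u} [Field K] [CharZero K] (T : NCTheory.{u, v, w} K)

/-- **LIM** -/
theorem lim (h2 : SDual2 T) (hcs : SCS T) : SLim T := by
  intro A
  refine ⟨?_, ?_⟩
  · intro m n g hg hgg
    have e1 : a (zz A m) g (zz A n) LinearMap.id = a (zz A n) LinearMap.id (zz A m) g :=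
      a_comm S_id
    have e2 := dual_move (h2 (T.pow A n)).2.1 (X := T.pow A n) (Y := zz A m)
      (LinearMap.id : T.H (T.pow A n) →ₗ[K] T.H (T.pow A n)) g
    rw [ex_id] at e2
    have e3 : a (T.pow A n) LinearMap.id (T.ten (zz A m) (T.pow A n)) (ex g LinearMap.id) =
        a (T.ten (zz A m) (T.pow A n)) (ex g LinearMap.id) (T.pow A n) LinearMap.id :=
      a_comm (S_ex hg S_id)
    rw [e1]
    refine le_trans e2 ?_
    rw [e3]
    exact hcs (zz A m) g hg hgg (T.pow A n)
  · intro hfull hA m g hg hgg δ hδ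
    obtain ⟨hdim, hb⟩ := good_zz h2 A m
    obtain ⟨D, hD⟩ : ∃ D, D = finrank K (T.H A) := ⟨_, rfl⟩
    rw [← hD] at hdim hA
    have hD0 : (0 : ℝ) < D := by exact_mod_cast hA
    have hB2 : (0 : ℝ) < (D : ℝ) ^ 2 := by positivity
    obtain ⟨c, hc0, hcB, hc⟩ := exists_close hB2 m hδ
    obtain ⟨l₀, hl₀⟩ := hfull c hc0 (by rw [← hD]; exact hcB)
    refine ⟨l₀, fun n hn => ?_⟩
    have hpow := ratio_pow hc0 hl₀ m n hn
    obtain ⟨h6, h7⟩ := finrank_compl hgg
    have h9 : b (zz A m) (LinearMap.id - g) (T.pow A n) ≤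
        finrank K (LinearMap.range (LinearMap.id - g)) * al A n :=
      hcs (zz A m) (LinearMap.id - g) (Submodule.sub_mem _ S_id hg) h6 (T.pow A n)
    have h10 := b_add_le (zz A m) (T.pow A n) g
    have h11 : b (zz A m) g (T.pow A n) ≤ a (zz A m) g (zz A n) LinearMap.id :=
      b_le h2 (zz A m) (T.pow A n) g
    have h12 := hb n
    rw [hdim] at h7
    have h14 : al A (n + m) + finrank K (LinearMap.range g) * al A n ≤
        a (zz A m) g (zz A n) LinearMap.id + D ^ (2 * m) * al A n := by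
      rw [← h7, Nat.add_mul]
      omega
    have h17 : (al A (n + m) : ℝ) + (finrank K (LinearMap.range g) : ℝ) * al A n ≤
        a (zz A m) g (zz A n) LinearMap.id + ((D : ℝ) ^ 2) ^ m * al A n := by
      rw [← pow_mul]
      exact_mod_cast h14
    have h18 : (0 : ℝ) ≤ al A n := Nat.cast_nonneg _
    nlinarith [mul_le_mul_of_nonneg_right hc.le h18]

end Pool.Agent.Y658.ZI
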